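import Pool.Agent.H68R3.HM7

set_option autoImplicit false

/-!
# Non-uniqueness of extremals for the Hardy–Morrey inequality (MP_e9cdae_an)

For every `n ≥ 2` and every `p > n` close enough to `n` there is a bounded connected open set (the
unit ball minus two disjoint small closed balls) with two extremals of the Hardy–Morrey quotient
that are not related by a similarity of the domain and multiplication by a constant.
-/

open MeasureTheory Filter Topology Set
open scoped ENNReal NNReal RealInnerProductSpace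

namespace Pool.Agent.Results.MP_e9cdae_an.NonUnique

/-- Euclidean space `ℝⁿ` -/
abbrev E (n : ℕ) := EuclideanSpace ℝ (Fin n)

variable {n : ℕ}

/-- `g` is the weak gradient of `u`: `∫ u ∇φ = - ∫ φ g` for all test functions `φ` -/
def IsWeakGradient (u : E n → ℝ) (g : E n → E n) : Prop :=
  ∀ φ : E n → ℝ, ContDiff ℝ (⊤ : ℕ∞) φ → HasCompactSupport φ →
    ∫ x, u x • gradient φ x = - ∫ x, φ x • g x

/-- `u ∈ D^{1,p}_0(Ω)`, with weak gradient `g`: `u` is the continuous representative of a function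
whose weak gradient `g` is in `L^p(ℝⁿ)`, and `u = 0` outside `Ω` -/
structure MemD0 (p : ℝ) (Ω : Set (E n)) (u : E n → ℝ) (g : E n → E n) : Prop where
  cont : Continuous u
  grad : IsWeakGradient u g
  memLp : MemLp g (ENNReal.ofReal p) volume
  zero : ∀ x, x ∉ Ω → u x = 0

/-- `‖Du‖_p^p` -/
noncomputable def energy (p : ℝ) (g : E n → E n) : ℝ≥0∞ := ∫⁻ x, ‖g x‖ₑ ^ p

/-- `‖u / d_Ω^{1-n/p}‖_∞`, the supremum over `Ω` -/
noncomputable def weightedSup (p : ℝ) (Ω : Set (E n)) (u : E n → ℝ) : ℝ≥0∞ :=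
  ⨆ x ∈ Ω, ENNReal.ofReal (|u x| / Metric.infDist x Ωᶜ ^ (1 - (n : ℝ) / p))

/-- the Hardy–Morrey constant `λ_p(Ω)` -/
noncomputable def hardyMorrey (p : ℝ) (Ω : Set (E n)) : ℝ≥0∞ :=
  ⨅ (u : E n → ℝ) (g : E n → E n) (_ : MemD0 p Ω u g) (_ : u ≠ 0),
    energy p g / weightedSup p Ω u ^ p

/-- `u` is an extremal: a nonzero element of `D^{1,p}_0(Ω)` whose quotient equals `λ_p(Ω)` -/
def IsExtremal (p : ℝ) (Ω : Set (E n)) (u : E n → ℝ) : Prop :=
  u ≠ 0 ∧ ∃ g : E n → E n, MemD0 p Ω u g ∧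
    energy p g / weightedSup p Ω u ^ p = hardyMorrey p Ω

open Pool.Agent.H68R3
open Pool.Agent.Helper533.Polar (H0 Cc)

variable {p : ℝ} {e : E n} {ε s : ℝ}

/-- compactly supported members are in the closure of the test functions -/
theorem MemD0.toH0 (hn : 1 ≤ n) {p : ℝ} (hp : 1 < p) {Ω : Set (E n)} {u : E n → ℝ} {g : E n → E n}
    (h : MemD0 p Ω u g) (hb : Bornology.IsBounded Ω) : H0 p volume univ u g := by
  have hK : IsCompact (closure Ω) := hb.isCompact_closure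
  have hcs : HasCompactSupport u := HasCompactSupport.intro hK fun x hx =>
    h.zero x fun h' => hx (subset_closure h')
  have hu : MemLp u (ENNReal.ofReal p) volume := h.cont.memLp_of_hasCompactSupport hcs
  refine ⟨hu, h.memLp, fun ε hε => ?_⟩
  obtain ⟨δ, hδ, hδε⟩ : ∃ δ : ℝ, 0 < δ ∧ ENNReal.ofReal δ ≤ ε := by
    by_cases ht : ε = ∞
    · exact ⟨1, one_pos, by rw [ht]; exact le_top⟩
    · exact ⟨ε.toReal, ENNReal.toReal_pos hε ht, ENNReal.ofReal_toReal_le⟩
  obtain ⟨φ, h1, -, h2, h3, -, -⟩ := Pool.Agent.Helper533.Polar.mollify_weak hn hp hu h.memLp hK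
    (Eventually.of_forall fun x hx => h.zero x fun h' => hx (subset_closure h'))
    (fun φ hφ => h.grad φ hφ.smooth hφ.comp) hδ
  exact ⟨φ, h1, h2.trans hδε, h3.trans hδε⟩

theorem isBounded_Om : Bornology.IsBounded (Om e ε s) := Metric.isBounded_ball.subset bounded_Om

theorem MemD0.toFe (hn : 1 ≤ n) (hp : 1 < p) {u : E n → ℝ} {g : E n → E n}
    (h : MemD0 p (Om e ε s) u g) : Fe p u g :=
  ⟨h.cont, h.toH0 hn hp isBounded_Om, fun x hx => h.zero x fun h' => by
    have := bounded_Om h'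
    rw [Metric.mem_ball, dist_zero_right] at this
    linarith⟩

theorem Fe.toMemD0 (hp : 1 < p) {u : E n → ℝ} {g : E n → E n} (h : Fe p u g)
    (hz : ∀ z, DD e ε s z ≤ 0 → u z = 0) : MemD0 p (Om e ε s) u g :=
  ⟨h.cont, fun _ h1 h2 => Pool.Agent.Helper533.Polar.H0.ibp hp h.h0 ⟨h1, h2, subset_univ _⟩,
    h.h0.mU, fun x hx => hz x (not_mem_Om.1 hx)⟩

theorem quot_rpow (hn : 1 ≤ n) (hp : (n : ℝ) < p) {a d : ℝ} (ha : 0 ≤ a) (hd : 0 < d) :
    ENNReal.ofReal (a / d ^ (1 - (n : ℝ) / p)) ^ p =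
      ENNReal.ofReal (a ^ p) * (ENNReal.ofReal (d ^ (p - n)))⁻¹ := by
  have hn' : (1 : ℝ) ≤ n := by exact_mod_cast hn
  have hp0 : 0 < p := by linarith
  rw [ENNReal.ofReal_rpow_of_nonneg (by positivity) hp0.le, Real.div_rpow ha (by positivity),
    ← Real.rpow_mul hd.le, ← ENNReal.ofReal_inv_of_pos (by positivity),
    ← ENNReal.ofReal_mul (by positivity), div_eq_mul_inv]
  congr 4
  field_simp

/-- the Hardy–Morrey inequality with the constant `lam` -/
theorem lam_sup_le (hn : 1 ≤ n) (hp : (n : ℝ) < p) (hε : 0 < ε) {u : E n → ℝ} {g : E n → E n}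
    (h : MemD0 p (Om e ε s) u g) :
    lam p e ε s * weightedSup p (Om e ε s) u ^ p ≤ energy p g := by
  have hn' : (1 : ℝ) ≤ n := by exact_mod_cast hn
  have hp0 : 0 < p := by linarith
  have hp1 : 1 < p := by linarith
  have hmono : weightedSup p (Om e ε s) u ^ p = ⨆ x ∈ Om e ε s,
      ENNReal.ofReal (|u x| / Metric.infDist x (Om e ε s)ᶜ ^ (1 - (n : ℝ) / p)) ^ p := by
    unfold weightedSup
    have e1 : ∀ t : ℝ≥0∞, (ENNReal.orderIsoRpow p hp0) t = t ^ p := fun t => rfl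
    rw [← e1, (ENNReal.orderIsoRpow p hp0).map_iSup]
    congr 1; ext x
    rw [(ENNReal.orderIsoRpow p hp0).map_iSup]
    rfl
  rw [hmono, ENNReal.mul_iSup]
  refine iSup_le fun x => ?_
  rw [ENNReal.mul_iSup]
  refine iSup_le fun hx => ?_
  have hx' : 0 < DD e ε s x := hx
  have h1 := lam_mul hp1 (h.toFe hn hp1) (fun z hz => h.zero z (not_mem_Om.2 hz)) hx'
  have hd0 : ENNReal.ofReal (DD e ε s x ^ (p - n)) ≠ 0 :=
    (ENNReal.ofReal_pos.2 (by positivity)).ne'
  rw [infDist_Om hε hx, quot_rpow hn hp (abs_nonneg _) hx', ← mul_assoc]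
  calc lam p e ε s * ENNReal.ofReal (|u x| ^ p) * (ENNReal.ofReal (DD e ε s x ^ (p - n)))⁻¹
      ≤ FF p e ε s g x * (ENNReal.ofReal (DD e ε s x ^ (p - n)))⁻¹ := mul_le_mul_left h1 _
    _ = energy p g := by
        unfold FF
        rw [mul_comm, ← mul_assoc, ENNReal.inv_mul_cancel hd0 ENNReal.ofReal_ne_top, one_mul]
        rfl

theorem sup_pos (hn : 1 ≤ n) (hp : (n : ℝ) < p) (hε : 0 < ε) {u : E n → ℝ} {g : E n → E n}
    (h : MemD0 p (Om e ε s) u g) (hu : u ≠ 0) : weightedSup p (Om e ε s) u ^ p ≠ 0 := by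
  have hn' : (1 : ℝ) ≤ n := by exact_mod_cast hn
  have hp0 : 0 < p := by linarith
  obtain ⟨x, hx⟩ : ∃ x, u x ≠ 0 := by
    by_contra hcon
    push Not at hcon
    exact hu (funext hcon)
  have hxΩ : x ∈ Om e ε s := by
    by_contra h'
    exact hx (h.zero x h')
  have hx' : 0 < DD e ε s x := hxΩ
  have h1 : ENNReal.ofReal (|u x| / Metric.infDist x (Om e ε s)ᶜ ^ (1 - (n : ℝ) / p)) ≤
      weightedSup p (Om e ε s) u := by
    unfold weightedSup
    exact le_iSup₂ (f := fun y (_ : y ∈ Om e ε s) =>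
      ENNReal.ofReal (|u y| / Metric.infDist y (Om e ε s)ᶜ ^ (1 - (n : ℝ) / p))) x hxΩ
  have h2 : 0 < weightedSup p (Om e ε s) u := by
    refine lt_of_lt_of_le (ENNReal.ofReal_pos.2 ?_) h1
    rw [infDist_Om hε hxΩ]
    have := abs_pos.2 hx
    positivity
  exact (ENNReal.rpow_pos_of_nonneg h2 hp0.le).ne'

theorem lam_le_hardyMorrey (hn : 1 ≤ n) (hp : (n : ℝ) < p) (hε : 0 < ε) :
    lam p e ε s ≤ hardyMorrey p (Om e ε s) := by
  have hn' : (1 : ℝ) ≤ n := by exact_mod_cast hn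
  have hp0 : 0 < p := by linarith
  refine le_iInf₂ fun u g => le_iInf₂ fun h hu => ?_
  have hEt : energy p g ≠ ∞ := En_ne_top hp0 h.memLp
  exact (ENNReal.le_div_iff_mul_le (Or.inl (sup_pos hn hp hε h hu)) (Or.inr hEt)).2
    (lam_sup_le hn hp hε h)

/-- optimal data are extremals -/
theorem isExtremal (hn : 1 ≤ n) (hp : (n : ℝ) < p) (hε : 0 < ε) {u : E n → ℝ} {W : E n → E n}
    {x : E n} (h : Dat p e ε s u W x) (hF : FF p e ε s W x ≤ lam p e ε s) :
    IsExtremal p (Om e ε s) u := by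
  have hn' : (1 : ℝ) ≤ n := by exact_mod_cast hn
  have hp0 : 0 < p := by linarith
  have hp1 : 1 < p := by linarith
  have hx' := h.pos
  have hxΩ : x ∈ Om e ε s := h.pos
  have hM : MemD0 p (Om e ε s) u W := Fe.toMemD0 hp1 h.fe h.zero
  have hu0 : u ≠ 0 := by
    intro h0
    have := h.one
    rw [h0] at this
    exact zero_ne_one this
  have hd0 : ENNReal.ofReal (DD e ε s x ^ (p - n)) ≠ 0 :=
    (ENNReal.ofReal_pos.2 (by positivity)).ne'
  refine ⟨hu0, W, hM, le_antisymm ?_ ?_⟩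
  · refine le_trans ?_ (hF.trans (lam_le_hardyMorrey hn hp hε))
    have h1 : (ENNReal.ofReal (DD e ε s x ^ (p - n)))⁻¹ ≤ weightedSup p (Om e ε s) u ^ p := by
      have h2 : ENNReal.ofReal (|u x| / Metric.infDist x (Om e ε s)ᶜ ^ (1 - (n : ℝ) / p)) ≤
          weightedSup p (Om e ε s) u := by
        unfold weightedSup
        exact le_iSup₂ (f := fun y (_ : y ∈ Om e ε s) =>
          ENNReal.ofReal (|u y| / Metric.infDist y (Om e ε s)ᶜ ^ (1 - (n : ℝ) / p))) x hxΩ
      have h3 := ENNReal.rpow_le_rpow h2 hp0.le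
      rw [infDist_Om hε hxΩ, quot_rpow hn hp (abs_nonneg _) hx', h.one, abs_one, Real.one_rpow,
        ENNReal.ofReal_one, one_mul] at h3
      exact h3
    calc energy p W / weightedSup p (Om e ε s) u ^ p
        ≤ energy p W / (ENNReal.ofReal (DD e ε s x ^ (p - n)))⁻¹ := ENNReal.div_le_div_left h1 _
      _ = FF p e ε s W x := by
          rw [div_eq_mul_inv, inv_inv, mul_comm]
          rfl
  · unfold hardyMorrey
    exact iInf₂_le_of_le u W (iInf₂_le_of_le hM hu0 le_rfl)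

theorem Om_eq : Om e ε s = Metric.ball 0 1 \
    (Metric.closedBall 0 (rA ε s) ∪ Metric.closedBall ((1 / 2 : ℝ) • e) (rB ε s)) := by
  ext z
  simp only [Om, DD, mem_ofPred_eq, lt_min_iff, sub_pos, Set.mem_sdiff, Metric.mem_ball,
    mem_union, Metric.mem_closedBall, not_or, not_le, dist_eq_norm, sub_zero]

/-- **Main theorem.** For every `n ≥ 2` there is `p₀ > n` such that for all `p` in `(n, p₀)` and
every unit vector `e` there are `a, b` in `(0, 1/16]` such that the connected open set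
`Ω = B(0,1) \ (B̄(0,a) ∪ B̄(e/2,b))` has two extremals `u, v` of the Hardy–Morrey quotient with
`v ≠ c (u ∘ T)` for every `c ≠ 0` and every similarity `T x = r Q x + t` mapping `Ω` onto
itself. -/
theorem result (n : ℕ) (hn : 2 ≤ n) : ∃ p₀ : ℝ, (n : ℝ) < p₀ ∧ ∀ p : ℝ, (n : ℝ) < p → p < p₀ →
    ∀ e : E n, ‖e‖ = 1 → ∃ a b : ℝ, 0 < a ∧ a ≤ 1 / 16 ∧ 0 < b ∧ b ≤ 1 / 16 ∧
      ∃ Ω : Set (E n),
        Ω = Metric.ball 0 1 \ (Metric.closedBall 0 a ∪ Metric.closedBall ((1 / 2 : ℝ) • e) b) ∧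
        IsOpen Ω ∧ IsConnected Ω ∧ Ω ≠ univ ∧
        ∃ u v : E n → ℝ, IsExtremal p Ω u ∧ IsExtremal p Ω v ∧
          ∀ (c r : ℝ) (Q : E n ≃ₗᵢ[ℝ] E n) (t : E n), c ≠ 0 → 0 < r →
            (fun x => r • Q x + t) '' Ω = Ω → v ≠ fun x => c * u (r • Q x + t) := by
  obtain ⟨C, hC, h2⟩ := exists_two hn
  obtain ⟨p₀, hp₀, hgood⟩ := mem_nhdsGT_iff_exists_Ioo_subset.1 (eventually_good hn hC)
  refine ⟨p₀, hp₀, fun p hp hp' e he => ?_⟩
  have hG : Good n C p := hgood ⟨hp, hp'⟩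
  have hn1 : 1 ≤ n := by omega
  have hn0 : (2:ℝ) ≤ n := by exact_mod_cast hn
  have hp0 : 0 < p := by linarith
  have hp1 : 1 < p := by linarith
  obtain ⟨ε, s, hε, hε1, hs0, hs1, ⟨u, U, x, hu, hFu, hx⟩, ⟨v, V, y, hv, hFv, hy⟩⟩ := h2 p hG e he
  have hε16 : ε ≤ 1 / 16 := by linarith
  -- a vector orthogonal to `e`
  obtain ⟨f, hf, hfe⟩ : ∃ f : E n, ‖f‖ = 1 ∧ ⟪f, e⟫ = (0:ℝ) := by
    have hlt : Module.finrank ℝ (Submodule.span ℝ {e}) < Module.finrank ℝ (E n) := by
      rw [finrank_span_singleton (by intro h0; rw [h0, norm_zero] at he; exact zero_ne_one he),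
        finrank_euclideanSpace_fin]
      omega
    have hne : (Submodule.span ℝ {e})ᗮ ≠ ⊥ := by
      intro hbot
      rw [Submodule.orthogonal_eq_bot_iff] at hbot
      rw [hbot, finrank_top] at hlt
      exact lt_irrefl _ hlt
    obtain ⟨w, hw, hw0⟩ := Submodule.exists_mem_ne_zero_of_ne_bot hne
    have hw' : ⟪w, e⟫ = (0:ℝ) := by
      rw [real_inner_comm]
      exact (Submodule.mem_orthogonal_singleton_iff_inner_right).1 hw
    refine ⟨‖w‖⁻¹ • w, ?_, ?_⟩
    · rw [norm_smul, norm_inv, norm_norm, inv_mul_cancel₀ (norm_ne_zero_iff.2 hw0)]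
    · rw [inner_smul_left, hw', mul_zero]
  have hA := le_rA (ε := ε) (s := s)
  have hB := le_rB (ε := ε) (s := s)
  refine ⟨rA ε s, rB ε s, by linarith, rA_le hε16 hs0, by linarith, rB_le hε16 hs1,
    Om e ε s, Om_eq, isOpen_Om, isConnected_Om hn he hf hfe hε hε16 hs0 hs1, ?_, u, v,
    isExtremal hn1 hp hε hu hFu, isExtremal hn1 hp hε hv hFv, ?_⟩
  · intro huniv
    have h0 : (0 : E n) ∈ Om e ε s := by rw [huniv]; trivial
    have h1 : 0 < DD e ε s (0 : E n) := h0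
    have h2 := DD_leA (e := e) (ε := ε) (s := s) (x := (0 : E n))
    rw [norm_zero] at h2
    linarith
  intro c r Q t hc hr hT hvu
  obtain ⟨rfl, rfl⟩ := sim_eq he hε16 hs0 hs1 hr Q t hT
  simp only [one_smul, add_zero] at hT hvu
  -- finiteness and positivity of `lam`
  have hlt : lam p e ε s ≠ ∞ := by
    refine ((lam_le hu).trans_lt ?_).ne
    unfold FF
    exact ENNReal.mul_lt_top ENNReal.ofReal_lt_top (En_ne_top hp0 hu.fe.h0.mU).lt_top
  have hl0 : lam p e ε s ≠ 0 := by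
    intro h0
    rw [h0, nonpos_iff_eq_zero] at hFu
    unfold FF at hFu
    have hE0 : En p U = 0 := by
      rcases mul_eq_zero.1 hFu with h | h
      · exact absurd h (ENNReal.ofReal_pos.2 (Real.rpow_pos_of_pos hu.pos _)).ne'
      · exact h
    obtain ⟨K, hK, hmor⟩ := morreyR hn1 hp
    have h3 := hmor u U hu.fe 0 le_rfl (by rw [hE0]; exact zero_le) x e
    rw [mul_zero, Real.zero_rpow (by positivity), mul_zero, hu.one, hu.fe.out e he.ge, sub_zero,
      abs_one] at h3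
    linarith
  -- the second peak
  set z : E n := Q.symm x with hzdef
  have hQz : Q z = x := Q.apply_symm_apply x
  have hxΩ : x ∈ Om e ε s := hu.pos
  have hzΩ : z ∈ Om e ε s := by
    rw [← hT] at hxΩ
    obtain ⟨w, hw, hwx⟩ := hxΩ
    have : w = z := by
      apply Q.injective
      rw [hQz]; exact hwx
    rwa [← this]
  have hzn : ‖z‖ = ‖x‖ := by rw [hzdef, Q.symm.norm_map]
  have hDz : DD e ε s z = DD e ε s x := by
    rw [← infDist_Om hε hzΩ, ← infDist_Om hε hu.pos]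
    have h3 : (Q : E n → E n) '' (Om e ε s)ᶜ = (Om e ε s)ᶜ := by
      rw [image_compl_eq Q.bijective, hT]
    have h4 := Metric.infDist_image (Φ := (Q : E n → E n)) (x := z) (t := (Om e ε s)ᶜ) Q.isometry
    rw [h3, hQz] at h4
    exact h4.symm
  have hH : H0 p volume univ v (fun w => c • Q.symm (U (Q w))) := by
    rw [hvu]
    exact (H0_comp_isom Q hu.fe.h0).const_mul c
  have hEV : En p V = ENNReal.ofReal (|c| ^ p) * En p U := by
    rw [En_congr (H0_grad_unique hp1 hv.fe.h0 hH), En_smul hp0 c (fun w => Q.symm (U (Q w)))]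
    congr 1
    rw [En_eq hp0, En_eq hp0]
    congr 1
    have h3 : eLpNorm (fun w => Q.symm (U (Q w))) (ENNReal.ofReal p) volume =
        eLpNorm (fun w => U (Q w)) (ENNReal.ofReal p) volume :=
      eLpNorm_congr_norm_ae (Eventually.of_forall fun w => Q.symm.norm_map _)
    rw [h3]
    exact eLpNorm_comp_measurePreserving hu.fe.h0.mU.1 Q.measurePreserving
  have hvz : v z = c := by
    rw [hvu]
    simp only
    rw [hQz, hu.one, mul_one]
  have hyz : z ≠ y := by
    intro h3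
    rw [h3] at hzn
    have h4 : ‖(1 / 2 : ℝ) • e‖ = 1 / 2 := by
      rw [norm_smul, he, Real.norm_eq_abs, abs_of_pos (by norm_num), mul_one]
    have h5 := norm_sub_norm_le ((1 / 2 : ℝ) • e) y
    rw [norm_sub_rev] at h5
    linarith
  refine unique_peak hn hp hv.fe hv.zero hlt hl0 (x := z) (y := y) (by rw [hDz]; exact hu.pos)
    hv.pos hyz (by rw [hvz]; exact hc) ?_ ?_
  · unfold FF at hFu ⊢
    rw [hDz, hEV, hvz]
    calc ENNReal.ofReal (DD e ε s x ^ (p - n)) * (ENNReal.ofReal (|c| ^ p) * En p U)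
        = ENNReal.ofReal (DD e ε s x ^ (p - n)) * En p U * ENNReal.ofReal (|c| ^ p) := by ring
      _ ≤ lam p e ε s * ENNReal.ofReal (|c| ^ p) := mul_le_mul_left hFu _
  · rw [hv.one, abs_one, Real.one_rpow, ENNReal.ofReal_one, mul_one]
    exact hFv

end Pool.Agent.Results.MP_e9cdae_an.NonUnique
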